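import Pool.Agent.H9.AR.Prm

/-!
# MP_2920eb_co, AsymptoticRegular: real analysis (module Asy)

PROOF. Use `prime_gap (2 * A + 1)`: a prime `p` with `r = p + 1 - d`, `0 <= r <= C1 d / (log d)^(2A+1)` (`log d >= log 2`). Then
`p + 1 <= C2 d`, `log (4 p^2 + 4 p + 6) <= C3 log d`, `√p >= √(d-1) >= √d (1 - 1/d)`, `r / √p <= 2 r / √d` (`p >= d/2`: `p >= 2`, `p >= d - 1`), so
the numerator divided by `√d` is at least `1 - 1/d - 2 C1 / (log d)^(2A+1) - 8 √(C1 C3 / (log d)^(2A))`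
`>= 1 - C / (log d)^A`, as `1/d <= C4 / (log d)^A` for `d >= 2` (for instance `(log d)^A <= A! d`, `Real.pow_div_factorial_le_exp`)
and `1 / (log d)^(A+1) <= 1 / log 2`. Finally `x / d = (x / √d) / √d`.
-/

set_option autoImplicit false

namespace Pool.Agent.H9.AR

theorem asy (f : ℕ → ℝ) (hf : ∀ d p : ℕ, 2 ≤ d → p.Prime → d ≤ p + 1 →
      (√(p : ℝ) - ((p : ℝ) + 1 - d) / √(p : ℝ) -
        8 * √(((p : ℝ) + 1 - d) * Real.log (4 * (p : ℝ) ^ 2 + 4 * p + 6))) / d ≤ f d) (A : ℕ) :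
    ∃ C : ℝ, 0 < C ∧ ∀ d : ℕ, 2 ≤ d → (1 - C / Real.log d ^ A) / √(d : ℝ) ≤ f d := by
  obtain ⟨C1, hC1, hgap⟩ := prime_gap (2 * A + 1)
  obtain ⟨l2, hl2⟩ : ∃ l2 : ℝ, l2 = Real.log 2 := ⟨_, rfl⟩
  have hl0 : 0 < l2 := by
    rw [hl2]
    exact Real.log_pos (by norm_num)
  obtain ⟨C2, hC2⟩ : ∃ C2 : ℝ, C2 = 1 + C1 / l2 ^ (2 * A + 1) := ⟨_, rfl⟩
  have hC21 : 1 ≤ C2 := by
    rw [hC2]
    have : 0 < C1 / l2 ^ (2 * A + 1) := by positivity
    linarith
  have hlog6 : 0 ≤ Real.log 6 := Real.log_nonneg (by norm_num)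
  have hlogC2 : 0 ≤ Real.log C2 := Real.log_nonneg hC21
  obtain ⟨C3, hC3⟩ : ∃ C3 : ℝ, C3 = 2 + (Real.log 6 + 2 * Real.log C2) / l2 := ⟨_, rfl⟩
  have hC30 : 0 < C3 := by
    rw [hC3]
    positivity
  have hfac : (0 : ℝ) < (A.factorial : ℝ) := by exact_mod_cast A.factorial_pos
  refine ⟨(A.factorial : ℝ) + 2 * C1 / l2 ^ (A + 1) + 8 * √(C1 * C3), by positivity, ?_⟩
  intro d hd
  obtain ⟨p, hp, hdp, hr⟩ := hgap d hd
  have hdR : (2 : ℝ) ≤ d := by exact_mod_cast hd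
  have hd0 : (0 : ℝ) < d := by linarith
  obtain ⟨L, hLdef⟩ : ∃ L : ℝ, L = Real.log d := ⟨_, rfl⟩
  rw [← hLdef] at hr ⊢
  have hL : l2 ≤ L := by
    rw [hl2, hLdef]
    exact Real.log_le_log (by norm_num) hdR
  have hL0 : 0 < L := by linarith
  have hpd : (d : ℝ) ≤ p + 1 := by exact_mod_cast hdp
  have hp2 : (2 : ℝ) ≤ p := by exact_mod_cast hp.two_le
  obtain ⟨r, hrdef⟩ : ∃ r : ℝ, r = (p : ℝ) + 1 - d := ⟨_, rfl⟩
  have hr0 : 0 ≤ r := by
    rw [hrdef]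
    linarith
  have hfd := hf d p hd hp hdp
  rw [← hrdef] at hr hfd
  obtain ⟨s, hs⟩ : ∃ s : ℝ, s = √(d : ℝ) := ⟨_, rfl⟩
  have hs0 : 0 < s := by
    rw [hs]
    exact Real.sqrt_pos.2 hd0
  have hss : s * s = d := by
    rw [hs]
    exact Real.mul_self_sqrt hd0.le
  rw [← hs]
  -- the square root of p
  have h1 : s - 1 / s ≤ √(p : ℝ) := by
    refine (le_abs_self _).trans (Real.abs_le_sqrt ?_)
    have e1 : (s - 1 / s) ^ 2 = s * s - 2 + 1 / (s * s) := by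
      field_simp
      ring
    rw [e1, hss]
    have e2 : 1 / (d : ℝ) ≤ 1 := by
      rw [div_le_one hd0]
      linarith
    linarith
  have h2 : s / 2 ≤ √(p : ℝ) := by
    refine (le_abs_self _).trans (Real.abs_le_sqrt ?_)
    have e1 : (s / 2) ^ 2 = (s * s) / 4 := by ring
    rw [e1, hss]
    linarith
  have hrL : r ≤ C1 * d / L ^ (2 * A + 1) := by
    rw [le_div_iff₀ (by positivity)]
    exact hr
  -- the first error
  have h3 : 1 / s ≤ s * ((A.factorial : ℝ) / L ^ A) := by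
    have e1 : L ^ A / (A.factorial : ℝ) ≤ d := by
      have := Real.pow_div_factorial_le_exp L hL0.le A
      rw [hLdef, Real.exp_log hd0] at this
      rw [hLdef]
      exact this
    rw [div_le_iff₀ hfac] at e1
    rw [div_le_iff₀ hs0]
    have e2 : s * ((A.factorial : ℝ) / L ^ A) * s = (d : ℝ) * A.factorial / L ^ A := by
      rw [← hss]
      ring
    rw [e2, le_div_iff₀ (by positivity)]
    linarith
  -- the second error
  have h4 : r / √(p : ℝ) ≤ s * (2 * C1 / l2 ^ (A + 1) / L ^ A) := by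
    have e1 : r / √(p : ℝ) ≤ r / (s / 2) := div_le_div_of_nonneg_left hr0 (by positivity) h2
    have e2 : r / (s / 2) ≤ (C1 * d / L ^ (2 * A + 1)) / (s / 2) :=
      div_le_div_of_nonneg_right hrL (by positivity)
    have e3 : (C1 * d / L ^ (2 * A + 1)) / (s / 2) = s * (2 * C1 / L ^ (A + 1) / L ^ A) := by
      rw [← hss, show 2 * A + 1 = (A + 1) + A by ring, pow_add]
      field_simp
    have e4 : 2 * C1 / L ^ (A + 1) ≤ 2 * C1 / l2 ^ (A + 1) :=
      div_le_div_of_nonneg_left (by positivity) (by positivity) (pow_le_pow_left₀ hl0.le hL _)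
    have e5 : s * (2 * C1 / L ^ (A + 1) / L ^ A) ≤ s * (2 * C1 / l2 ^ (A + 1) / L ^ A) :=
      mul_le_mul_of_nonneg_left (div_le_div_of_nonneg_right e4 (by positivity)) hs0.le
    linarith
  -- the third error
  have h5 : Real.log (4 * (p : ℝ) ^ 2 + 4 * p + 6) ≤ C3 * L := by
    have e1 : (p : ℝ) + 1 ≤ C2 * d := by
      have e2 : C1 * d / L ^ (2 * A + 1) ≤ C1 * d / l2 ^ (2 * A + 1) :=
        div_le_div_of_nonneg_left (by positivity) (by positivity) (pow_le_pow_left₀ hl0.le hL _)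
      have e3 : C2 * d = d + C1 * d / l2 ^ (2 * A + 1) := by
        rw [hC2]
        ring
      have e4 : (p : ℝ) + 1 = r + d := by
        rw [hrdef]
        ring
      linarith
    have e5 : 4 * (p : ℝ) ^ 2 + 4 * p + 6 ≤ 6 * (C2 * d) ^ 2 := by
      have e6 : 4 * (p : ℝ) ^ 2 + 4 * p + 6 ≤ 6 * ((p : ℝ) + 1) ^ 2 := by nlinarith
      have e7 : ((p : ℝ) + 1) ^ 2 ≤ (C2 * d) ^ 2 := pow_le_pow_left₀ (by positivity) e1 2
      linarith
    have hC20 : 0 < C2 := by linarith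
    have e8 : Real.log (6 * (C2 * d) ^ 2) = Real.log 6 + 2 * Real.log C2 + 2 * L := by
      rw [Real.log_mul (by norm_num) (by positivity), Real.log_pow, Real.log_mul (by positivity) (by positivity),
        ← hLdef]
      push_cast
      ring
    have e9 : Real.log (4 * (p : ℝ) ^ 2 + 4 * p + 6) ≤ Real.log (6 * (C2 * d) ^ 2) :=
      Real.log_le_log (by positivity) e5
    have e10 : Real.log 6 + 2 * Real.log C2 ≤ (Real.log 6 + 2 * Real.log C2) / l2 * L := by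
      have e11 : (Real.log 6 + 2 * Real.log C2) / l2 * l2 = Real.log 6 + 2 * Real.log C2 := by
        field_simp
      have e12 : (Real.log 6 + 2 * Real.log C2) / l2 * l2 ≤ (Real.log 6 + 2 * Real.log C2) / l2 * L :=
        mul_le_mul_of_nonneg_left hL (by positivity)
      linarith
    rw [hC3]
    linarith
  have h6 : √(r * Real.log (4 * (p : ℝ) ^ 2 + 4 * p + 6)) ≤ s * (√(C1 * C3) / L ^ A) := by
    have e0 : 0 ≤ Real.log (4 * (p : ℝ) ^ 2 + 4 * p + 6) := Real.log_nonneg (by nlinarith)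
    have e1 : r * Real.log (4 * (p : ℝ) ^ 2 + 4 * p + 6) ≤ (C1 * d / L ^ (2 * A + 1)) * (C3 * L) :=
      mul_le_mul hrL h5 e0 (by positivity)
    have e2 : (C1 * d / L ^ (2 * A + 1)) * (C3 * L) = (s * (√(C1 * C3) / L ^ A)) ^ 2 := by
      have e3 : √(C1 * C3) ^ 2 = C1 * C3 := Real.sq_sqrt (by positivity)
      have e4 : (s * (√(C1 * C3) / L ^ A)) ^ 2 = (s * s) * √(C1 * C3) ^ 2 / (L ^ A) ^ 2 := by ring
      rw [e4, e3, hss, show 2 * A + 1 = A * 2 + 1 by ring, pow_succ, pow_mul]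
      field_simp
    rw [e2] at e1
    refine (Real.sqrt_le_sqrt e1).trans ?_
    rw [Real.sqrt_sq (by positivity)]
  have key : s * (1 - ((A.factorial : ℝ) + 2 * C1 / l2 ^ (A + 1) + 8 * √(C1 * C3)) / L ^ A) ≤
      √(p : ℝ) - r / √(p : ℝ) - 8 * √(r * Real.log (4 * (p : ℝ) ^ 2 + 4 * p + 6)) := by
    have e1 : s * (1 - ((A.factorial : ℝ) + 2 * C1 / l2 ^ (A + 1) + 8 * √(C1 * C3)) / L ^ A) =
        s - s * ((A.factorial : ℝ) / L ^ A) - s * (2 * C1 / l2 ^ (A + 1) / L ^ A) -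
          8 * (s * (√(C1 * C3) / L ^ A)) := by ring
    rw [e1]
    linarith
  refine le_trans ?_ hfd
  rw [div_le_div_iff₀ hs0 hd0]
  calc (1 - ((A.factorial : ℝ) + 2 * C1 / l2 ^ (A + 1) + 8 * √(C1 * C3)) / L ^ A) * (d : ℝ) =
        (s * (1 - ((A.factorial : ℝ) + 2 * C1 / l2 ^ (A + 1) + 8 * √(C1 * C3)) / L ^ A)) * s := by
        rw [← hss]
        ring
    _ ≤ _ := mul_le_mul_of_nonneg_right key hs0.le

end Pool.Agent.H9.AR
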