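import Pool.Agent.H17.Incidence

/-!
# MP_2920eb_co, AsymptoticRegular: the Cayley incidence graph is connected (module Conn)

PROOF. `inl x` is adjacent to `inr (x + b)`, `b ∈ B`, so `inl x` and `inl (x + b - b')` are joined for `b, b' ∈ B`. The set `H` of the `g` such
that `inl x` and `inl (x + g)` are in one component for all `x` is a subgroup which contains all `b - b'`. The map `(b, b') ↦ b - b'` is
injective on the pairs with `b ≠ b'` (hypothesis), so `H` has at least `|B| (|B| - 1) + 1` elements, more than half of `G`, and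
`card H ∣ card G` (Lagrange), so `H = ⊤`. Every `inr y` is adjacent to `inl (y - b)`. (Compare `Pool.Agent.H17.Ex.mem_regular` at the end of
`H17/Example33.lean` for the last steps.)
-/

set_option autoImplicit false

namespace Pool.Agent.H9.AR

open Finset Pool.Agent.H17

theorem connected_of_diff {G : Type} [AddCommGroup G] [Fintype G] [DecidableEq G] (B : Finset G) (hne : B.Nonempty)
    (hB : ∀ g : G, g ≠ 0 → ((B ×ˢ B).filter fun x => x.1 - x.2 = g).card ≤ 1)
    (hc : Fintype.card G < 2 * (B.card * (B.card - 1) + 1)) :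
    (incidenceGraph fun x y : G => y - x ∈ B).Connected := by
  classical
  have hadj : ∀ x y : G, y - x ∈ B →
      (incidenceGraph fun x y : G => y - x ∈ B).Adj (Sum.inl x) (Sum.inr y) := fun x y h => h
  have step : ∀ b ∈ B, ∀ b' ∈ B, ∀ x : G, (incidenceGraph fun x y : G => y - x ∈ B).Reachable
      (Sum.inl x) (Sum.inl (x + (b - b'))) := by
    intro b hb b' hb' x
    have a1 := hadj x (x + b) (by rw [add_sub_cancel_left]; exact hb)
    have a2 := hadj (x + (b - b')) (x + b) (by
      rw [show x + b - (x + (b - b')) = b' by abel]; exact hb')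
    exact a1.reachable.trans a2.symm.reachable
  let H : AddSubgroup G :=
    { carrier := {g | ∀ x : G, (incidenceGraph fun x y : G => y - x ∈ B).Reachable
        (Sum.inl x) (Sum.inl (x + g))}
      zero_mem' := fun x => by rw [add_zero]
      add_mem' := by
        intro g h hg hh x
        have h1 := hg x
        have h2 := hh (x + g)
        rw [add_assoc] at h2
        exact h1.trans h2
      neg_mem' := by
        intro g hg x
        have h1 := hg (x + -g)
        rw [neg_add_cancel_right] at h1
        exact h1.symm }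
  have hH : ∀ g, g ∈ H ↔ ∀ x : G, (incidenceGraph fun x y : G => y - x ∈ B).Reachable
      (Sum.inl x) (Sum.inl (x + g)) := fun g => Iff.rfl
  have hinj : Set.InjOn (fun x : G × G => x.1 - x.2) (B.offDiag : Set (G × G)) := by
    intro x hx y hy hxy
    have hx' := mem_offDiag.1 (mem_coe.1 hx)
    have hy' := mem_offDiag.1 (mem_coe.1 hy)
    have h0 : x.1 - x.2 ≠ 0 := fun h => hx'.2.2 (sub_eq_zero.1 h)
    refine card_le_one.1 (hB (x.1 - x.2) h0) x ?_ y ?_
    · exact mem_filter.2 ⟨mem_product.2 ⟨hx'.1, hx'.2.1⟩, rfl⟩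
    · exact mem_filter.2 ⟨mem_product.2 ⟨hy'.1, hy'.2.1⟩, hxy.symm⟩
  have hsub : insert (0 : G) (B.offDiag.image fun x : G × G => x.1 - x.2) ⊆
      univ.filter fun g => g ∈ H := by
    intro g hg
    refine mem_filter.2 ⟨mem_univ _, ?_⟩
    rcases mem_insert.1 hg with rfl | hg
    · exact H.zero_mem
    · obtain ⟨x, hx, rfl⟩ := mem_image.1 hg
      have hx' := mem_offDiag.1 hx
      exact (hH _).2 (step x.1 hx'.1 x.2 hx'.2.1)
  have h0 : (0 : G) ∉ B.offDiag.image fun x : G × G => x.1 - x.2 := by
    intro h
    obtain ⟨x, hx, h⟩ := mem_image.1 h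
    exact (mem_offDiag.1 hx).2.2 (sub_eq_zero.1 h)
  have hcard : B.card * (B.card - 1) + 1 ≤ Nat.card H := by
    have h1 := card_le_card hsub
    rw [card_insert_of_notMem h0, card_image_of_injOn hinj, offDiag_card] at h1
    have h2 : Nat.card H = (univ.filter fun g => g ∈ H).card := by
      rw [Nat.card_eq_fintype_card, Fintype.card_subtype]
    rw [h2, Nat.mul_sub_one]
    exact h1
  have htop : H = ⊤ := by
    have hd := H.card_addSubgroup_dvd_card
    obtain ⟨c, hc'⟩ := hd
    refine AddSubgroup.eq_top_of_card_eq H ?_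
    rw [← Nat.card_eq_fintype_card] at hc
    have hpos : 0 < Nat.card G := Nat.card_pos
    have hc1 : c = 1 := by
      rcases Nat.lt_or_ge c 2 with h | h
      · interval_cases c
        · omega
        · rfl
      · exfalso
        have : Nat.card H * 2 ≤ Nat.card H * c := Nat.mul_le_mul_left _ h
        omega
    rw [hc', hc1, mul_one]
  have hconn : ∀ p q : G, (incidenceGraph fun x y : G => y - x ∈ B).Reachable
      (Sum.inl p) (Sum.inl q) := by
    intro p q
    have h1 : q - p ∈ H := by rw [htop]; exact AddSubgroup.mem_top _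
    have h2 := (hH _).1 h1 p
    rwa [add_sub_cancel] at h2
  have hline : ∀ l : G, ∃ p : G, (incidenceGraph fun x y : G => y - x ∈ B).Reachable
      (Sum.inr l) (Sum.inl p) := by
    intro l
    obtain ⟨b, hb⟩ := hne
    exact ⟨l - b, (hadj (l - b) l (by rw [sub_sub_cancel]; exact hb)).symm.reachable⟩
  have : Nonempty (G ⊕ G) := ⟨Sum.inl 0⟩
  refine SimpleGraph.Connected.mk ?_
  rintro (p | l) (q | m)
  · exact hconn p q
  · obtain ⟨q, hq⟩ := hline m
    exact (hconn p q).trans hq.symm
  · obtain ⟨p, hp⟩ := hline l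
    exact hp.trans (hconn p q)
  · obtain ⟨p, hp⟩ := hline l
    obtain ⟨q, hq⟩ := hline m
    exact hp.trans ((hconn p q).trans hq.symm)

end Pool.Agent.H9.AR
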