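import Pool.Agent.H43.SI.Psi

/-!
# MP_2920eb_co, AsymptoticRegular: a prime just above `d - 1` (module Prm)

PROOF. Let `A' = A + 2`. `Pool.Agent.H43.SI.psi_log 1 A'` (modulus 1, the only character is `1`) gives
`|psi x - x| <= C x (log x)^(-A')` for `x >= 2`, `psi x = sum of Lambda n, n <= x`. For large `d` put
`h = d / (log d)^A`; then `psi (d + h) - psi d >= h - 3 C d (log d)^(-A') >= h / 2`. The powers `q ^ k`, `k >= 2`,
up to `2 d` contribute at most `2 sqrt(2 d) log(2 d)` (Mathlib: `Chebyshev.psi`, `Chebyshev.theta`,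
`Chebyshev.abs_psi_sub_theta_le_sqrt_mul_log`, or the file `H43/SI/Pri.lean`), which is less than `h / 2`. So there is a prime `p`
with `d < p <= d + h`, and `(p + 1 - d) (log d)^A <= 2 d` if `h >= 1`. For the finitely many small `d` use Bertrand
(`Nat.exists_prime_lt_and_le_two_mul`: `d < p <= 2 d`) and a large constant.
-/

set_option autoImplicit false

namespace Pool.Agent.H9.AR

private lemma prm_psi (A : ℕ) : ∃ C : ℝ, 0 < C ∧ ∀ x : ℝ, 2 ≤ x →
    |Chebyshev.psi x - x| ≤ C * x / Real.log x ^ (A + 2) := by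
  obtain ⟨C, hC, h⟩ := Pool.Agent.H43.SI.psi_log 1 ((A + 2 : ℕ) : ℝ) (by positivity)
  refine ⟨C, hC, fun x hx => ?_⟩
  have h1 := h 1 x hx
  rw [if_pos rfl, Real.rpow_neg (Real.log_nonneg (by linarith)), Real.rpow_natCast] at h1
  have h2 : ∑ n ∈ Finset.Icc 1 ⌊x⌋₊, ((ArithmeticFunction.vonMangoldt n : ℝ) : ℂ) *
      (1 : DirichletCharacter ℂ 1) n - (x : ℂ) = ((Chebyshev.psi x - x : ℝ) : ℂ) := by
    rw [Complex.ofReal_sub, Chebyshev.psi, Complex.ofReal_sum]
    congr 1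
    refine Finset.sum_congr rfl fun n hn => ?_
    have h3 : (1 : DirichletCharacter ℂ 1) (n : ZMod 1) = 1 :=
      MulChar.one_apply (isUnit_of_subsingleton _)
    rw [h3, mul_one]
  rw [h2, Complex.norm_real, Real.norm_eq_abs] at h1
  rw [div_eq_mul_inv]
  exact h1

private lemma prm_exists (x y : ℝ) (h : Chebyshev.theta x < Chebyshev.theta y) :
    ∃ p : ℕ, p.Prime ∧ ⌊x⌋₊ < p ∧ p ≤ ⌊y⌋₊ := by
  by_contra hcon
  push Not at hcon
  refine absurd h (not_lt.2 ?_)
  rw [Chebyshev.theta, Chebyshev.theta]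
  refine Finset.sum_le_sum_of_subset_of_nonneg ?_ fun i _ _ => Real.log_natCast_nonneg i
  intro p hp
  simp only [Finset.mem_filter, Finset.mem_Ioc] at hp ⊢
  refine ⟨⟨hp.1.1, ?_⟩, hp.2⟩
  by_contra h2
  exact absurd hp.1.2 (not_le.2 (hcon p hp.2 (not_le.1 h2)))

private lemma prm_ev (A : ℕ) : ∃ D : ℕ, 2 ≤ D ∧ ∀ d : ℕ, D ≤ d →
    ∃ p : ℕ, p.Prime ∧ d < p ∧ ((p : ℝ) + 1 - d) * Real.log d ^ A ≤ 2 * d := by
  obtain ⟨C, hC, hpsi⟩ := prm_psi A
  have hL := Real.tendsto_log_atTop.comp (tendsto_natCast_atTop_atTop (R := ℝ))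
  have e1 : ∀ᶠ d : ℕ in Filter.atTop, 6 * C + 1 ≤ Real.log (d : ℝ) :=
    hL.eventually_ge_atTop (6 * C + 1)
  have e2 : ∀ᶠ d : ℕ in Filter.atTop, ‖Real.log (d : ℝ) ^ (2 * A + 2)‖ ≤ 1 / 300 * ‖(d : ℝ)‖ := by
    have h3 := (Real.isLittleO_pow_log_id_atTop (n := 2 * A + 2)).bound
      (show (0 : ℝ) < 1 / 300 by norm_num)
    exact (tendsto_natCast_atTop_atTop (R := ℝ)).eventually h3
  obtain ⟨D, hD⟩ := Filter.eventually_atTop.1 (e1.and e2)
  refine ⟨max D 3, le_trans (by norm_num) (le_max_right _ _), fun d hd => ?_⟩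
  obtain ⟨h1, h2⟩ := hD d (le_trans (le_max_left _ _) hd)
  have hd3 : 3 ≤ d := le_trans (le_max_right _ _) hd
  have hdR : (3 : ℝ) ≤ d := by exact_mod_cast hd3
  set L : ℝ := Real.log (d : ℝ) with hLdef
  have hL1 : 1 ≤ L := by linarith
  have hL0 : 0 < L := by linarith
  rw [Real.norm_of_nonneg (by positivity), Real.norm_of_nonneg (by positivity)] at h2
  have hLA : 0 < L ^ A := by positivity
  set h : ℝ := (d : ℝ) / L ^ A with hh
  have hhpos : 0 < h := by positivity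
  have hLA1 : 1 ≤ L ^ A := one_le_pow₀ hL1
  have hhle : h ≤ d := div_le_self (by positivity) hLA1
  have hpow1 : L ^ A ≤ L ^ (2 * A + 2) := pow_le_pow_right₀ hL1 (by omega)
  have hh1 : 1 ≤ h := by
    rw [hh, le_div_iff₀ hLA]
    nlinarith
  have hhL : h * L ^ A = d := by rw [hh]; field_simp
  -- psi bounds
  have p1 := hpsi (d : ℝ) (by linarith)
  have p2 := hpsi ((d : ℝ) + h) (by linarith)
  rw [abs_le] at p1 p2
  have hlog : L ≤ Real.log ((d : ℝ) + h) := Real.log_le_log (by linarith) (by linarith)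
  have p3 : C * ((d : ℝ) + h) / Real.log ((d : ℝ) + h) ^ (A + 2) ≤ C * (2 * d) / L ^ (A + 2) := by
    apply div_le_div₀ (by positivity) _ (by positivity) (pow_le_pow_left₀ hL0.le hlog _)
    exact mul_le_mul_of_nonneg_left (by linarith) hC.le
  have p4 : C * (2 * d) / L ^ (A + 2) + C * (d : ℝ) / L ^ (A + 2) = h * (3 * C / L ^ 2) := by
    rw [hh, pow_add]
    field_simp
    ring
  have p5 : h * (3 * C / L ^ 2) < h * (1 / 2) := by
    refine mul_lt_mul_of_pos_left ?_ hhpos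
    rw [div_lt_iff₀ (by positivity)]
    nlinarith
  -- prime powers
  have q1 := Chebyshev.abs_psi_sub_theta_le_sqrt_mul_log (x := (d : ℝ) + h) (by linarith)
  have q2 := Chebyshev.theta_le_psi (d : ℝ)
  rw [abs_le] at q1
  have q3 : Real.log ((d : ℝ) + h) ≤ 2 * L := by
    have : Real.log ((d : ℝ) + h) ≤ Real.log ((d : ℝ) ^ 2) :=
      Real.log_le_log (by linarith) (by nlinarith)
    rw [Real.log_pow] at this
    exact_mod_cast this
  have q4 : Real.sqrt ((d : ℝ) + h) ≤ 2 * Real.sqrt d := by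
    have : Real.sqrt ((d : ℝ) + h) ≤ Real.sqrt (2 ^ 2 * d) := Real.sqrt_le_sqrt (by linarith)
    rwa [Real.sqrt_mul (by norm_num), Real.sqrt_sq (by norm_num)] at this
  have q5 : 16 * L ^ (A + 1) < Real.sqrt d := by
    refine Real.lt_sqrt_of_sq_lt ?_
    have : (16 * L ^ (A + 1)) ^ 2 = 256 * L ^ (2 * A + 2) := by ring
    rw [this]
    linarith
  have q6 : 2 * Real.sqrt ((d : ℝ) + h) * Real.log ((d : ℝ) + h) < h * (1 / 2) := by
    have hs0 : 0 < Real.sqrt d := Real.sqrt_pos.2 (by linarith)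
    have hss : Real.sqrt d * Real.sqrt d = d := Real.mul_self_sqrt (by linarith)
    have r1 : 2 * Real.sqrt ((d : ℝ) + h) * Real.log ((d : ℝ) + h) ≤
        2 * (2 * Real.sqrt d) * (2 * L) := by
      apply mul_le_mul (by linarith) q3 (by linarith) (by positivity)
    refine lt_of_le_of_lt r1 ?_
    have r2 : 16 * L ^ (A + 1) * Real.sqrt d < d := by
      calc 16 * L ^ (A + 1) * Real.sqrt d < Real.sqrt d * Real.sqrt d :=
            mul_lt_mul_of_pos_right q5 hs0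
        _ = d := hss
    have r3 : 16 * L * Real.sqrt d * L ^ A < h * L ^ A := by
      rw [hhL]
      calc 16 * L * Real.sqrt d * L ^ A = 16 * L ^ (A + 1) * Real.sqrt d := by ring
        _ < d := r2
    have r4 : 16 * L * Real.sqrt d < h := lt_of_mul_lt_mul_right r3 hLA.le
    linarith
  have ht : Chebyshev.theta (d : ℝ) < Chebyshev.theta ((d : ℝ) + h) := by linarith [p1.1, p1.2, p2.1, p2.2, q1.1, q1.2]
  obtain ⟨p, hp, hp1, hp2⟩ := prm_exists _ _ ht
  rw [Nat.floor_natCast] at hp1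
  refine ⟨p, hp, hp1, ?_⟩
  have hp3 : (p : ℝ) ≤ d + h := (Nat.le_floor_iff (by positivity)).1 hp2
  calc ((p : ℝ) + 1 - d) * L ^ A ≤ (2 * h) * L ^ A :=
        mul_le_mul_of_nonneg_right (by linarith) hLA.le
    _ = 2 * (h * L ^ A) := by ring
    _ = 2 * d := by rw [hhL]

theorem prime_gap (A : ℕ) : ∃ C : ℝ, 0 < C ∧ ∀ d : ℕ, 2 ≤ d →
    ∃ p : ℕ, p.Prime ∧ d ≤ p + 1 ∧ ((p : ℝ) + 1 - d) * Real.log d ^ A ≤ C * d := by
  obtain ⟨D, hD2, hD⟩ := prm_ev A
  have hD0 : (0 : ℝ) ≤ Real.log D := Real.log_natCast_nonneg D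
  refine ⟨2 + 2 * Real.log D ^ A, by positivity, fun d hd => ?_⟩
  have hdR : (2 : ℝ) ≤ d := by exact_mod_cast hd
  have hL0 : (0 : ℝ) ≤ Real.log d := Real.log_natCast_nonneg d
  rcases le_or_gt D d with h | h
  · obtain ⟨p, hp, hp1, hp2⟩ := hD d h
    refine ⟨p, hp, by omega, hp2.trans ?_⟩
    have : (0 : ℝ) ≤ 2 * Real.log D ^ A * d := by positivity
    linarith
  · obtain ⟨p, hp, hp1, hp2⟩ := Nat.exists_prime_lt_and_le_two_mul d (by omega)
    refine ⟨p, hp, by omega, ?_⟩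
    have hp3 : (p : ℝ) ≤ 2 * d := by exact_mod_cast hp2
    have hlog : Real.log d ≤ Real.log D :=
      Real.log_le_log (by linarith) (by exact_mod_cast h.le)
    have hpow : Real.log d ^ A ≤ Real.log D ^ A := pow_le_pow_left₀ hL0 hlog A
    calc ((p : ℝ) + 1 - d) * Real.log d ^ A ≤ (2 * d) * Real.log D ^ A := by
          apply mul_le_mul (by linarith) hpow (by positivity) (by positivity)
      _ ≤ (2 + 2 * Real.log D ^ A) * d := by nlinarith

end Pool.Agent.H9.AR
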