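import Mathlib

/-!
# MP_2920eb_co, AsymptoticRegular: a good subset of given size (module Rand)

PROOF. Let `m = D.card`, `q = r / m` (if `r = 0` take the empty set; so `m, r > 0`), `N = 2 (card J + 1)`, `L = log N > 0`. If `r < L` every
`R` of size `r` will do: the left side is at most `r + r <= 2 sqrt(r L)`. Let `L <= r`, `t = sqrt(L / r) <= 1`.
The `N` functions `a`: `phi j`, `- phi j`, `1`, `-1`. For a subset `R` of `D` let `w R = q ^ (card R) (1 - q) ^ (m - card R)`; `sum w R = 1`
(`Finset.sum_pow_mul_eq_add_pow` or `Finset.prod_add`). For each `a`: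
`sum_R w R exp(t sum_(x in R) a x) = prod_(x in D) (1 - q + q exp(t a x))` (`Finset.prod_add` / `Finset.prod_one_add`)
`<= prod exp(q (exp(t a x) - 1)) <= exp(q sum_(x in D) (t a x + t^2))` (`Real.add_one_le_exp`; `exp y <= 1 + y + y^2` for `|y| <= 1`,
from `Real.abs_exp_sub_one_sub_id_le`) `= exp(t q sum_D a + t^2 r)`.
So `sum_R w R (sum_a exp(t (sum_R a - q sum_D a))) <= N exp(t^2 r)`, and some `R` has `sum_a exp(..) <= N exp(t^2 r)` (a weighted
average is at least the minimum: `Finset.exists_le_of_sum_le` or by contradiction with `Finset.sum_lt_sum`). Every term is positive, so for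
each `a`: `t (sum_R a - q sum_D a) <= L + t^2 r = 2 L`, i.e. `sum_R a - q sum_D a <= 2 L / t = 2 sqrt(r L)`. With `a = 1, -1`:
`|card R - r| <= 2 sqrt(r L)`; with `a = phi j, - phi j`: `|sum_R phi j - q sum_D phi j| <= 2 sqrt(r L)`.
Add elements of `D - R` to `R` or delete elements of `R` until the size is `r` (`Finset.exists_subset_card_eq`,
`Finset.exists_subsuperset_card_eq`): every sum changes by at most `|card R - r| <= 2 sqrt(r L)`. Total `4 sqrt(r L)`.
-/

set_option autoImplicit false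

namespace Pool.Agent.H9.AR

open Finset

/-- conditional expectations: some subset is at most the average -/
private theorem cond_exp {X I : Type} [DecidableEq X] [Fintype I] (t q : ℝ) (hq0 : 0 ≤ q) (hq1 : q ≤ 1)
    (a : I → X → ℝ) (D : Finset X) :
    ∀ c : I → ℝ, ∃ R ⊆ D, ∑ i, c i * Real.exp (t * ∑ x ∈ R, a i x) ≤
      ∑ i, c i * ∏ x ∈ D, (1 - q + q * Real.exp (t * a i x)) := by
  induction D using Finset.induction_on with
  | empty =>
    intro c
    refine ⟨∅, Finset.Subset.refl _, le_of_eq (Finset.sum_congr rfl fun i _ => ?_)⟩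
    rw [Finset.sum_empty, Finset.prod_empty, mul_zero, Real.exp_zero]
  | insert x D hx ih =>
    intro c
    obtain ⟨R, hR, h⟩ := ih (fun i => c i * (1 - q + q * Real.exp (t * a i x)))
    have hxR : x ∉ R := fun h' => hx (hR h')
    obtain ⟨A, hA⟩ : ∃ A : ℝ, A = ∑ i, c i * Real.exp (t * ∑ x ∈ R, a i x) := ⟨_, rfl⟩
    obtain ⟨B, hB⟩ : ∃ B : ℝ, B = ∑ i, c i * Real.exp (t * ∑ x ∈ insert x R, a i x) := ⟨_, rfl⟩
    have h1 : ∑ i, c i * (1 - q + q * Real.exp (t * a i x)) * Real.exp (t * ∑ x ∈ R, a i x) =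
        (1 - q) * A + q * B := by
      rw [hA, hB, Finset.mul_sum, Finset.mul_sum, ← Finset.sum_add_distrib]
      refine Finset.sum_congr rfl fun i _ => ?_
      have e1 : Real.exp (t * (a i x + ∑ x ∈ R, a i x)) = Real.exp (t * a i x) * Real.exp (t * ∑ x ∈ R, a i x) := by
        rw [← Real.exp_add, mul_add]
      rw [Finset.sum_insert hxR, e1]
      ring
    have h2 : ∑ i, c i * (1 - q + q * Real.exp (t * a i x)) * ∏ x ∈ D, (1 - q + q * Real.exp (t * a i x)) =
        ∑ i, c i * ∏ x ∈ insert x D, (1 - q + q * Real.exp (t * a i x)) := by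
      refine Finset.sum_congr rfl fun i _ => ?_
      rw [Finset.prod_insert hx, mul_assoc]
    rw [h1, h2] at h
    rcases le_total A B with hAB | hAB
    · refine ⟨R, hR.trans (Finset.subset_insert _ _), ?_⟩
      rw [← hA]
      nlinarith
    · refine ⟨insert x R, Finset.insert_subset_insert _ hR, ?_⟩
      rw [← hB]
      nlinarith

private theorem exp_quad (y : ℝ) (hy : |y| ≤ 1) : Real.exp y ≤ 1 + y + y ^ 2 := by
  have h := Real.abs_exp_sub_one_sub_id_le hy
  have h1 := le_abs_self (Real.exp y - 1 - y)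
  linarith

/-- the product is at most the exponential of the mean and the variance -/
private theorem prod_le {X : Type} (t q : ℝ) (ht0 : 0 ≤ t) (ht1 : t ≤ 1) (hq0 : 0 ≤ q) (hq1 : q ≤ 1)
    (a : X → ℝ) (ha : ∀ x, |a x| ≤ 1) (D : Finset X) :
    ∏ x ∈ D, (1 - q + q * Real.exp (t * a x)) ≤ Real.exp (t * (q * ∑ x ∈ D, a x) + t ^ 2 * (q * D.card)) := by
  have h1 : t * (q * ∑ x ∈ D, a x) + t ^ 2 * (q * D.card) = ∑ x ∈ D, q * (t * a x + t ^ 2) := by
    rw [← Finset.mul_sum, Finset.sum_add_distrib, ← Finset.mul_sum, Finset.sum_const, nsmul_eq_mul]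
    ring
  rw [h1, Real.exp_sum]
  refine Finset.prod_le_prod (fun x _ => ?_) fun x _ => ?_
  · have := Real.exp_pos (t * a x)
    have : 0 ≤ q * Real.exp (t * a x) := by positivity
    linarith
  · have h2 : |t * a x| ≤ 1 := by
      rw [abs_mul, abs_of_nonneg ht0]
      exact mul_le_one₀ ht1 (abs_nonneg _) (ha x)
    have h3 := exp_quad _ h2
    have h4 : (t * a x) ^ 2 ≤ t ^ 2 := by
      rw [mul_pow]
      have h5 : a x ^ 2 ≤ 1 := by
        rw [← sq_abs]
        exact pow_le_one₀ (abs_nonneg _) (ha x)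
      have h6 : 0 ≤ t ^ 2 := by positivity
      nlinarith
    have h7 : 1 - q + q * Real.exp (t * a x) ≤ q * (t * a x + t ^ 2) + 1 := by
      nlinarith
    exact h7.trans (Real.add_one_le_exp _)

/-- all sums are near their means -/
private theorem near {X I : Type} [DecidableEq X] [Fintype I] (D : Finset X) (r : ℕ) (hr0 : 0 < r) (hr : r ≤ D.card)
    (a : I → X → ℝ) (ha : ∀ i x, |a i x| ≤ 1) (hI : 2 ≤ Fintype.card I) (hL : Real.log (Fintype.card I) ≤ r) :
    ∃ R ⊆ D, ∀ i, ∑ x ∈ R, a i x - (r : ℝ) / D.card * ∑ x ∈ D, a i x ≤ 2 * √(r * Real.log (Fintype.card I)) := by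
  obtain ⟨L, hLd⟩ : ∃ L : ℝ, L = Real.log (Fintype.card I) := ⟨_, rfl⟩
  obtain ⟨q, hqd⟩ : ∃ q : ℝ, q = (r : ℝ) / D.card := ⟨_, rfl⟩
  have hm0 : (0 : ℝ) < D.card := by exact_mod_cast lt_of_lt_of_le hr0 hr
  have hr0' : (0 : ℝ) < r := by exact_mod_cast hr0
  have hq0 : 0 ≤ q := by rw [hqd]; positivity
  have hq1 : q ≤ 1 := by
    rw [hqd, div_le_one hm0]
    exact_mod_cast hr
  have hqm : q * D.card = r := by
    rw [hqd]
    field_simp
  have hI' : (2 : ℝ) ≤ Fintype.card I := by exact_mod_cast hI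
  have hL0 : 0 < L := by
    rw [hLd]
    exact Real.log_pos (by linarith)
  rw [← hLd] at hL
  obtain ⟨t, htd⟩ : ∃ t : ℝ, t = √(L / r) := ⟨_, rfl⟩
  have ht0 : 0 < t := by
    rw [htd]
    exact Real.sqrt_pos.2 (by positivity)
  have ht2 : t ^ 2 * r = L := by
    rw [htd, Real.sq_sqrt (by positivity)]
    field_simp
  have ht1 : t ≤ 1 := by
    rw [htd]
    refine Real.sqrt_le_one.2 ?_
    rw [div_le_one hr0']
    exact hL
  obtain ⟨R, hR, h⟩ := cond_exp t q hq0 hq1 a D (fun i => Real.exp (-(t * (q * ∑ x ∈ D, a i x))))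
  refine ⟨R, hR, fun i => ?_⟩
  rw [← hqd, ← hLd]
  have h1 : ∑ i, Real.exp (-(t * (q * ∑ x ∈ D, a i x))) * ∏ x ∈ D, (1 - q + q * Real.exp (t * a i x)) ≤
      ∑ _i : I, Real.exp L := by
    refine Finset.sum_le_sum fun i _ => ?_
    have h2 := prod_le t q ht0.le ht1 hq0 hq1 (a i) (ha i) D
    rw [hqm, ht2] at h2
    calc _ ≤ Real.exp (-(t * (q * ∑ x ∈ D, a i x))) * Real.exp (t * (q * ∑ x ∈ D, a i x) + L) :=
          mul_le_mul_of_nonneg_left h2 (Real.exp_pos _).le
      _ = Real.exp L := by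
          rw [← Real.exp_add]
          congr 1
          ring
  rw [Finset.sum_const, nsmul_eq_mul, Finset.card_univ] at h1
  have h3 : Real.exp L = (Fintype.card I : ℝ) := by
    rw [hLd]
    exact Real.exp_log (by linarith)
  have h4 : Real.exp (-(t * (q * ∑ x ∈ D, a i x))) * Real.exp (t * ∑ x ∈ R, a i x) ≤ Real.exp (L + L) := by
    rw [Real.exp_add L L]
    have h5 := Finset.single_le_sum (f := fun i => Real.exp (-(t * (q * ∑ x ∈ D, a i x))) * Real.exp (t * ∑ x ∈ R, a i x))
      (fun j _ => by positivity) (Finset.mem_univ i)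
    have h6 := h5.trans (h.trans h1)
    rw [← h3] at h6
    exact h6
  rw [← Real.exp_add, Real.exp_le_exp] at h4
  have h7 : t * (∑ x ∈ R, a i x - q * ∑ x ∈ D, a i x) ≤ 2 * L := by linarith
  have h8 : L = t * √(r * L) := by
    have h9 : t * √(r * L) = √(L / r * (r * L)) := by
      rw [htd, ← Real.sqrt_mul (by positivity)]
    rw [h9, show L / r * (r * L) = L * L by field_simp]
    exact (Real.sqrt_mul_self hL0.le).symm
  have h10 : t * (∑ x ∈ R, a i x - q * ∑ x ∈ D, a i x) ≤ t * (2 * √(r * L)) := by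
    calc _ ≤ 2 * L := h7
      _ = t * (2 * √(r * L)) := by linarith
  exact le_of_mul_le_mul_left h10 ht0

/-- the change of a sum by adding or deleting elements -/
private theorem chg {X : Type} [DecidableEq X] (f : X → ℝ) (hf : ∀ x, |f x| ≤ 1) {R R' : Finset X} (h : R ⊆ R') :
    |∑ x ∈ R', f x - ∑ x ∈ R, f x| ≤ (R'.card : ℝ) - R.card := by
  have h1 : ∑ x ∈ R', f x - ∑ x ∈ R, f x = ∑ x ∈ R' \ R, f x := by
    rw [← Finset.sum_sdiff h]
    ring
  rw [h1]
  have h2 : ((R' \ R).card : ℝ) = (R'.card : ℝ) - R.card := by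
    rw [Finset.card_sdiff_of_subset h, Nat.cast_sub (Finset.card_le_card h)]
  rw [← h2]
  refine (Finset.abs_sum_le_sum_abs _ _).trans ?_
  calc ∑ x ∈ R' \ R, |f x| ≤ ∑ _x ∈ R' \ R, (1 : ℝ) := Finset.sum_le_sum fun x _ => hf x
    _ = _ := by simp

theorem select {X J : Type} [DecidableEq X] [Fintype J] (D : Finset X) (r : ℕ) (hr : r ≤ D.card) (φ : J → X → ℝ)
    (hφ : ∀ j x, |φ j x| ≤ 1) : ∃ R ⊆ D, R.card = r ∧
      ∀ j, |∑ x ∈ R, φ j x - (r : ℝ) / D.card * ∑ x ∈ D, φ j x| ≤
        4 * √(r * Real.log (2 * (Fintype.card J + 1))) := by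
  classical
  obtain ⟨L, hLd⟩ : ∃ L : ℝ, L = Real.log (2 * (Fintype.card J + 1)) := ⟨_, rfl⟩
  have hJ0 : (0 : ℝ) ≤ Fintype.card J := Nat.cast_nonneg _
  have hL0 : 0 < L := by
    rw [hLd]
    exact Real.log_pos (by linarith)
  rw [← hLd]
  have hr0 : (0 : ℝ) ≤ r := Nat.cast_nonneg _
  have hs0 : 0 ≤ √(r * L) := Real.sqrt_nonneg _
  have hqb : ∀ f : X → ℝ, (∀ x, |f x| ≤ 1) → |(r : ℝ) / D.card * ∑ x ∈ D, f x| ≤ r := by
    intro f hf
    have h1 := chg f hf (Finset.empty_subset D)
    rw [Finset.sum_empty, sub_zero, Finset.card_empty, Nat.cast_zero, sub_zero] at h1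
    rw [abs_mul, abs_of_nonneg (by positivity)]
    rcases Nat.eq_zero_or_pos D.card with h0 | h0
    · rw [h0, Nat.cast_zero, div_zero, zero_mul]
      exact hr0
    · have h0' : (0 : ℝ) < D.card := by exact_mod_cast h0
      calc (r : ℝ) / D.card * |∑ x ∈ D, f x| ≤ (r : ℝ) / D.card * D.card :=
            mul_le_mul_of_nonneg_left h1 (by positivity)
        _ = r := by field_simp
  rcases lt_or_ge (r : ℝ) L with hrL | hrL
  · obtain ⟨R, hR, hRc⟩ := Finset.exists_subset_card_eq hr
    refine ⟨R, hR, hRc, fun j => ?_⟩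
    have h1 := chg (φ j) (hφ j) (Finset.empty_subset R)
    rw [Finset.sum_empty, sub_zero, Finset.card_empty, Nat.cast_zero, sub_zero, hRc] at h1
    have h2 := hqb (φ j) (hφ j)
    have h3 : (r : ℝ) ≤ √(r * L) := by
      refine Real.le_sqrt_of_sq_le ?_
      nlinarith
    calc _ ≤ |∑ x ∈ R, φ j x| + |(r : ℝ) / D.card * ∑ x ∈ D, φ j x| := abs_sub _ _
      _ ≤ r + r := add_le_add h1 h2
      _ ≤ 4 * √(r * L) := by linarith
  · have hrp : 0 < r := by
      rcases Nat.eq_zero_or_pos r with h0 | h0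
      · rw [h0, Nat.cast_zero] at hrL
        linarith
      · exact h0
    have hm0 : (0 : ℝ) < D.card := by exact_mod_cast lt_of_lt_of_le hrp hr
    obtain ⟨a, had⟩ : ∃ a : Bool × Option J → X → ℝ, a = fun i x =>
      (if i.1 then (1 : ℝ) else -1) * (Option.elim i.2 1 fun j => φ j x) := ⟨_, rfl⟩
    have ha : ∀ i x, |a i x| ≤ 1 := by
      intro i x
      have h1 : |(if i.1 then (1 : ℝ) else -1)| = 1 := by
        split
        · exact abs_one
        · rw [abs_neg, abs_one]
      rw [had]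
      change |(if i.1 then (1 : ℝ) else -1) * (Option.elim i.2 1 fun j => φ j x)| ≤ 1
      rw [abs_mul, h1, one_mul]
      rcases i.2 with _ | j
      · exact le_of_eq abs_one
      · exact hφ j x
    have hcard : Fintype.card (Bool × Option J) = 2 * (Fintype.card J + 1) := by
      rw [Fintype.card_prod, Fintype.card_bool, Fintype.card_option]
    have hcard' : ((Fintype.card (Bool × Option J) : ℕ) : ℝ) = 2 * (Fintype.card J + 1) := by
      rw [hcard]
      push_cast
      ring
    obtain ⟨R, hR, h⟩ := near D r hrp hr a ha (by rw [hcard]; omega) (by rw [hcard', ← hLd]; exact hrL)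
    rw [hcard', ← hLd] at h
    have h1 : ∀ x, a (true, none) x = 1 := by
      intro x
      rw [had]
      simp
    have h2 : ∀ x, a (false, none) x = -1 := by
      intro x
      rw [had]
      simp
    have h3 : ∀ j x, a (true, some j) x = φ j x := by
      intro j x
      rw [had]
      simp
    have h4 : ∀ j x, a (false, some j) x = -φ j x := by
      intro j x
      rw [had]
      simp
    have hc1 : (R.card : ℝ) - r ≤ 2 * √(r * L) := by
      have := h (true, none)
      rw [Finset.sum_congr rfl (fun x _ => h1 x), Finset.sum_congr rfl (fun x _ => h1 x), Finset.sum_const, Finset.sum_const,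
        nsmul_eq_mul, nsmul_eq_mul, mul_one, mul_one, div_mul_cancel₀ _ hm0.ne'] at this
      exact this
    have hc2 : (r : ℝ) - R.card ≤ 2 * √(r * L) := by
      have := h (false, none)
      rw [Finset.sum_congr rfl (fun x _ => h2 x), Finset.sum_congr rfl (fun x _ => h2 x), Finset.sum_const, Finset.sum_const,
        nsmul_eq_mul, nsmul_eq_mul] at this
      have h5 : (r : ℝ) / D.card * (D.card * -1) = -r := by
        rw [mul_neg_one, mul_neg, div_mul_cancel₀ _ hm0.ne']
      rw [h5] at this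
      linarith
    have hj : ∀ j, |∑ x ∈ R, φ j x - (r : ℝ) / D.card * ∑ x ∈ D, φ j x| ≤ 2 * √(r * L) := by
      intro j
      have e1 := h (true, some j)
      have e2 := h (false, some j)
      rw [Finset.sum_congr rfl (fun x _ => h3 j x), Finset.sum_congr rfl (fun x _ => h3 j x)] at e1
      rw [Finset.sum_congr rfl (fun x _ => h4 j x), Finset.sum_congr rfl (fun x _ => h4 j x), Finset.sum_neg_distrib,
        Finset.sum_neg_distrib] at e2
      rw [abs_le]
      constructor
      · linarith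
      · exact e1
    rcases le_total r R.card with hle | hle
    · obtain ⟨R', hR', hc⟩ := Finset.exists_subset_card_eq hle
      refine ⟨R', hR'.trans hR, hc, fun j => ?_⟩
      have h5 := chg (φ j) (hφ j) hR'
      rw [hc] at h5
      have h6 := hj j
      rw [abs_le] at h5 h6 ⊢
      constructor
      · linarith
      · linarith
    · obtain ⟨R', h1', h2', hc⟩ := Finset.exists_subsuperset_card_eq hR hle hr
      refine ⟨R', h2', hc, fun j => ?_⟩
      have h5 := chg (φ j) (hφ j) h1'
      rw [hc] at h5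
      have h6 := hj j
      rw [abs_le] at h5 h6 ⊢
      constructor
      · linarith
      · linarith

end Pool.Agent.H9.AR
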