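import Mathlib

/-!
# MP_2920eb_co, AsymptoticRegular: Singer difference sets (module Sing)

PROOF. `L = GaloisField p 3`, a field with `p ^ 3` elements, `finrank (ZMod p) L = 3`. `M` = the subgroup of `Lˣ` of the images of the
`p - 1` nonzero elements of `ZMod p` (range of `Units.map (algebraMap (ZMod p) L)`), `G = Additive (Lˣ ⧸ M)`,
`card G = (p ^ 3 - 1) / (p - 1) = p ^ 2 + p + 1`. `W` = a subspace of `L` of dimension 2 (for instance the kernel of a nonzero linear form,
or the span of two vectors), `D` = the image in `G` of the units in `W`.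
(1) Two units of `W` have the same image iff they differ by a factor in `M`, and `M` preserves `W - {0}`; so
`card D = (p ^ 2 - 1) / (p - 1) = p + 1` (all fibres of `W - {0} → D` have `p - 1` elements).
(2) Let `g ≠ 0` be the class of `u`, so `u` is not in the image of `ZMod p`. `W ⊓ u W` has dimension 1: it is at least `2 + 2 - 3`; if it
were 2 then `u W = W`, so `W` would be stable under multiplication by `u`, so by the subalgebra generated by `u`, which is `L` (its degree
divides 3 and is not 1; or: the set of the `x` with `x W ⊆ W` is a subring containing `ZMod p` and `u`, a finite field of order `p ^ k`,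
`k ∣ 3`, `k ≠ 1`, so all of `L`), and then `W = L`. Other way: if `u W = W`, multiplication by `u` on `W` has a characteristic polynomial
of degree 2 over `ZMod p` which kills `u`, so `u` has degree `<= 2` over `ZMod p`, and this degree divides 3, so `u` is in `ZMod p`.
(3) The pairs `(a, b)` in `D x D` with `a - b = g` are the classes of `(w, w')`, `w = u w' c`, so they correspond to the lines of
`W ⊓ u W`: exactly one.
-/

set_option autoImplicit false
set_option linter.unusedSectionVars false
set_option linter.style.haveILetI false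

namespace Pool.Agent.H9.AR

open Finset Module

/-- Planar difference set: every nonzero element is a difference of elements of `D` exactly once. -/
private def Planar {G : Type} [AddCommGroup G] (D : Finset G) : Prop :=
  ∀ g : G, g ≠ 0 → ∃! z : G × G, z.1 ∈ D ∧ z.2 ∈ D ∧ z.1 - z.2 = g

section

variable {F : Type} [Field F] [Finite F] {E : Type} [Field E] [Algebra F E] [Finite E]

/-- `u W` -/
private def stw (u : Eˣ) (W : Submodule F E) : Submodule F E :=
  W.comap (LinearMap.mulLeft F ((u⁻¹ : Eˣ) : E))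

private theorem mem_stw (u : Eˣ) (W : Submodule F E) (x : E) : x ∈ stw u W ↔ ((u⁻¹ : Eˣ) : E) * x ∈ W :=
  Iff.rfl

private theorem finrank_stw (u : Eˣ) (W : Submodule F E) : finrank F (stw u W) = finrank F W := by
  have e : stw u W ≃ₗ[F] W :=
    { toFun := fun x => ⟨((u⁻¹ : Eˣ) : E) * x.1, x.2⟩
      invFun := fun x => ⟨(u : E) * x.1, by
        rw [mem_stw, ← mul_assoc, Units.inv_mul, one_mul]; exact x.2⟩
      map_add' := fun x y => Subtype.ext (mul_add _ _ _)
      map_smul' := fun c x => Subtype.ext (by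
        show ((u⁻¹ : Eˣ) : E) * (c • x.1) = c • (((u⁻¹ : Eˣ) : E) * x.1)
        rw [mul_smul_comm])
      left_inv := fun x => Subtype.ext (by
        show (u : E) * (((u⁻¹ : Eˣ) : E) * x.1) = x.1
        rw [← mul_assoc, Units.mul_inv, one_mul])
      right_inv := fun x => Subtype.ext (by
        show ((u⁻¹ : Eˣ) : E) * ((u : E) * x.1) = x.1
        rw [← mul_assoc, Units.inv_mul, one_mul]) }
  exact e.finrank_eq

/-- multipliers of `W` form an intermediate field -/
private noncomputable def smultField (W : Submodule F E) : IntermediateField F E where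
  carrier := {x | ∀ w ∈ W, x * w ∈ W}
  mul_mem' := by
    intro a b ha hb w hw
    rw [mul_assoc]
    exact ha _ (hb _ hw)
  one_mem' := by
    intro w hw
    simpa using hw
  add_mem' := by
    intro a b ha hb w hw
    rw [add_mul]
    exact W.add_mem (ha _ hw) (hb _ hw)
  zero_mem' := by
    intro w hw
    simp
  algebraMap_mem' := by
    intro r w hw
    rw [← Algebra.smul_def]
    exact W.smul_mem r hw
  inv_mem' := by
    intro x hx w hw
    by_cases hx0 : x = 0
    · simp [hx0]
    · have hx' : ∀ m : ℕ, ∀ w ∈ W, x ^ m * w ∈ W := by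
        intro m
        induction m with
        | zero => intro w hw; simpa using hw
        | succ m ih =>
          intro w hw
          rw [pow_succ, mul_assoc]
          exact ih _ (hx _ hw)
      have hfin : IsOfFinOrder (Units.mk0 x hx0) := isOfFinOrder_of_finite _
      have hpos := hfin.orderOf_pos
      have hpow := pow_orderOf_eq_one (Units.mk0 x hx0)
      have hpow' : x ^ (orderOf (Units.mk0 x hx0)) = 1 := by
        have := congrArg Units.val hpow
        rwa [Units.val_pow_eq_pow_val, Units.val_mk0, Units.val_one] at this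
      have hinv : x⁻¹ = x ^ (orderOf (Units.mk0 x hx0) - 1) := by
        apply inv_eq_of_mul_eq_one_left
        rw [← pow_succ, Nat.sub_add_cancel hpos, hpow']
      rw [hinv]
      exact hx' _ w hw

private theorem stab (W : Submodule F E) (hv : finrank F E = 3) (hk : finrank F W = 2) (u : Eˣ)
    (hu : stw u W = W) : ∃ c : F, algebraMap F E c = u := by
  let K := smultField W
  have huK : (u : E) ∈ K := by
    intro w hw
    have : (u : E) * w ∈ stw u W := by
      rw [mem_stw, ← mul_assoc, Units.inv_mul, one_mul]; exact hw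
    rw [hu] at this
    exact this
  let W' : Submodule K E :=
    { carrier := W
      add_mem' := fun ha hb => W.add_mem ha hb
      zero_mem' := W.zero_mem
      smul_mem' := fun c x hx => c.2 x hx }
  have h1 : finrank F K * finrank K E = finrank F E := Module.finrank_mul_finrank F K E
  have h2 : finrank F K * finrank K W' = finrank F W := by
    have := Module.finrank_mul_finrank F K W'
    rw [this]
    have e : W' ≃ₗ[F] W :=
      { toFun := fun x => ⟨x.1, x.2⟩
        invFun := fun x => ⟨x.1, x.2⟩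
        map_add' := fun _ _ => rfl
        map_smul' := fun _ _ => rfl
        left_inv := fun _ => rfl
        right_inv := fun _ => rfl }
    exact e.finrank_eq
  have hd : finrank F K ∣ Nat.gcd 2 3 := by
    apply Nat.dvd_gcd
    · rw [← hk, ← h2]; exact dvd_mul_right _ _
    · rw [← hv, ← h1]; exact dvd_mul_right _ _
  have hd1 : finrank F K = 1 := Nat.dvd_one.1 hd
  have hbot : K = ⊥ := IntermediateField.finrank_eq_one_iff.1 hd1
  rw [hbot] at huK
  obtain ⟨c, hc⟩ := IntermediateField.mem_bot.1 huK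
  exact ⟨c, hc⟩

/-- the group -/
private abbrev SG (F : Type) [Field F] (E : Type) [Field E] [Algebra F E] : Type :=
  Additive (Eˣ ⧸ (Units.map (algebraMap F E : F →* E)).range)

/-- the class of a unit -/
private def cls (F : Type) [Field F] {E : Type} [Field E] [Algebra F E] (u : Eˣ) : SG F E :=
  Additive.ofMul (QuotientGroup.mk u)

private theorem cls_eq {u v : Eˣ} : cls F u = cls F v ↔ ∃ c : F, c ≠ 0 ∧ (v : E) = c • (u : E) := by
  unfold cls
  rw [Additive.ofMul.injective.eq_iff, QuotientGroup.eq, MonoidHom.mem_range]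
  constructor
  · rintro ⟨c, hc⟩
    refine ⟨c, c.ne_zero, ?_⟩
    have h1 : v = Units.map (algebraMap F E : F →* E) c * u := by
      rw [hc, mul_comm (u⁻¹) v, mul_assoc, inv_mul_cancel, mul_one]
    rw [Algebra.smul_def]
    exact congrArg Units.val h1
  · rintro ⟨c, hc0, hc⟩
    refine ⟨Units.mk0 c hc0, ?_⟩
    rw [eq_inv_mul_iff_mul_eq]
    refine Units.ext ?_
    rw [Units.val_mul, hc, Algebra.smul_def, mul_comm]
    rfl

private theorem cls_surj (g : SG F E) : ∃ u : Eˣ, cls F u = g := by
  obtain ⟨u, hu⟩ := QuotientGroup.mk_surjective (Additive.toMul g)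
  exact ⟨u, by unfold cls; rw [hu]; rfl⟩

private theorem cls_sub (u v : Eˣ) : cls F u - cls F v = cls F (u * v⁻¹) := by
  unfold cls
  rw [← ofMul_div, div_eq_mul_inv, ← QuotientGroup.mk_inv, ← QuotientGroup.mk_mul]

private theorem cls_zero {u : Eˣ} (h : ∃ c : F, algebraMap F E c = u) : cls F u = 0 := by
  obtain ⟨c, hc⟩ := h
  have h1 : cls F (1 : Eˣ) = cls F u := by
    rw [cls_eq]
    refine ⟨c, ?_, ?_⟩
    · rintro rfl
      rw [map_zero] at hc
      exact u.ne_zero hc.symm
    · rw [Units.val_one, Algebra.smul_def, mul_one, hc]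
  rw [← h1]
  rfl

open Classical in
/-- the difference set -/
private noncomputable def sD [Fintype (SG F E)] (W : Submodule F E) : Finset (SG F E) :=
  univ.filter (fun a => ∃ u : Eˣ, (u : E) ∈ W ∧ cls F u = a)

open Classical in
private theorem mem_sD [Fintype (SG F E)] (W : Submodule F E) (u : Eˣ) : cls F u ∈ sD W ↔ (u : E) ∈ W := by
  unfold sD
  rw [mem_filter]
  constructor
  · rintro ⟨-, v, hv, h⟩
    obtain ⟨c, hc0, hc⟩ := cls_eq.1 h
    rw [hc]
    exact W.smul_mem c hv
  · intro h
    exact ⟨mem_univ _, u, h, rfl⟩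

private theorem planar [Fintype (SG F E)] (W : Submodule F E) (hv : finrank F E = 3) (hk : finrank F W = 2) :
    Planar (sD W) := by
  intro g hg
  obtain ⟨γ, rfl⟩ := cls_surj g
  have hne : stw γ W ≠ W := fun h => hg (cls_zero (stab W hv hk γ h))
  have hsum := Submodule.finrank_sup_add_finrank_inf_eq W (stw γ W)
  rw [finrank_stw, hk] at hsum
  have h3 : finrank F ↥(W ⊔ stw γ W) ≤ 3 := by
    rw [← hv]
    exact Submodule.finrank_le _
  have h2 : finrank F ↥(W ⊔ stw γ W) ≠ 2 := by
    intro h
    apply hne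
    have e1 : W = W ⊔ stw γ W := Submodule.eq_of_le_of_finrank_eq le_sup_left (by rw [h, hk])
    have e2 : stw γ W = W ⊔ stw γ W := Submodule.eq_of_le_of_finrank_eq le_sup_right (by rw [h, finrank_stw, hk])
    exact e2.trans e1.symm
  have h2' : 2 ≤ finrank F ↥(W ⊔ stw γ W) := by
    rw [← hk]
    exact Submodule.finrank_mono le_sup_left
  have h1 : finrank F ↥(W ⊓ stw γ W) = 1 := by omega
  obtain ⟨⟨w0, hw0⟩, hw0ne, hspan⟩ := finrank_eq_one_iff'.1 h1
  have hw0' : w0 ≠ 0 := fun h => hw0ne (Subtype.ext h)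
  have hsp : ∀ x : E, x ∈ W → ((γ⁻¹ : Eˣ) : E) * x ∈ W → ∃ c : F, c • w0 = x := by
    intro x hx1 hx2
    obtain ⟨c, hc⟩ := hspan ⟨x, hx1, hx2⟩
    exact ⟨c, congrArg Subtype.val hc⟩
  obtain ⟨u0, hu0⟩ : ∃ u0 : Eˣ, (u0 : E) = w0 := ⟨Units.mk0 w0 hw0', rfl⟩
  refine ⟨(cls F u0, cls F (γ⁻¹ * u0)), ⟨?_, ?_, ?_⟩, ?_⟩
  · rw [mem_sD, hu0]
    exact hw0.1
  · rw [mem_sD, Units.val_mul, hu0]
    exact hw0.2
  · show cls F u0 - cls F (γ⁻¹ * u0) = cls F γ
    rw [cls_sub]
    congr 1
    rw [mul_inv_rev, inv_inv, ← mul_assoc, mul_inv_cancel, one_mul]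
  · rintro ⟨a, b⟩ ⟨ha, hb, hab⟩
    obtain ⟨u, rfl⟩ := cls_surj a
    obtain ⟨u', rfl⟩ := cls_surj b
    have hab' : cls F u - cls F u' = cls F γ := hab
    have ha' : (u : E) ∈ W := (mem_sD W u).1 ha
    have hb' : (u' : E) ∈ W := (mem_sD W u').1 hb
    have hb2 : cls F u' = cls F (γ⁻¹ * u) := by
      have h4 : cls F u' = cls F u - cls F γ := by rw [← hab']; abel
      rw [h4, cls_sub, mul_comm]
    obtain ⟨c, hc0, hc⟩ := cls_eq.1 hb2
    have h5 : ((γ⁻¹ : Eˣ) : E) * (u : E) ∈ W := by
      rw [← Units.val_mul, hc]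
      exact W.smul_mem c hb'
    obtain ⟨k, hk'⟩ := hsp u ha' h5
    have hk0 : k ≠ 0 := by
      rintro rfl
      rw [zero_smul] at hk'
      exact u.ne_zero hk'.symm
    have h6 : cls F u0 = cls F u := cls_eq.2 ⟨k, hk0, by rw [hu0, hk']⟩
    have h7 : cls F u' = cls F (γ⁻¹ * u0) := by
      rw [hb2]
      refine (cls_eq.2 ⟨k, hk0, ?_⟩).symm
      rw [Units.val_mul, Units.val_mul, hu0, ← hk', mul_smul_comm]
    exact Prod.ext h6.symm h7

end

private theorem card_pl {G : Type} [AddCommGroup G] [Fintype G] (D : Finset G) (hD : Planar D) :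
    D.card * D.card - D.card = Fintype.card G - 1 := by
  classical
  rw [← Finset.offDiag_card, ← Finset.card_univ, ← Finset.card_erase_of_mem (Finset.mem_univ (0 : G))]
  refine Finset.card_bij (fun z _ => z.1 - z.2) ?_ ?_ ?_
  · intro z hz
    rw [Finset.mem_offDiag] at hz
    exact Finset.mem_erase.2 ⟨fun h => hz.2.2 (sub_eq_zero.1 h), Finset.mem_univ _⟩
  · intro z hz w hw h
    rw [Finset.mem_offDiag] at hz hw
    have hne : z.1 - z.2 ≠ 0 := fun h => hz.2.2 (sub_eq_zero.1 h)
    exact (hD _ hne).unique ⟨hz.1, hz.2.1, rfl⟩ ⟨hw.1, hw.2.1, h.symm⟩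
  · intro g hg
    have hg0 : g ≠ 0 := (Finset.mem_erase.1 hg).1
    obtain ⟨z, ⟨h1, h2, h3⟩, -⟩ := hD g hg0
    refine ⟨z, Finset.mem_offDiag.2 ⟨h1, h2, ?_⟩, h3⟩
    intro h
    apply hg0
    rw [← h3, h, sub_self]

private theorem singer0 (p : ℕ) (hp : p.Prime) : ∃ (G : Type) (_ : AddCommGroup G) (_ : Fintype G)
    (D : Finset G), Fintype.card G = p ^ 2 + p + 1 ∧ D.card = p + 1 ∧ Planar D := by
  haveI : Fact p.Prime := ⟨hp⟩
  have hv : finrank (ZMod p) (GaloisField p 3) = 3 := GaloisField.finrank p (by norm_num)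
  haveI : Finite (GaloisField p 3) := Module.finite_of_finite (ZMod p)
  haveI : Fintype (SG (ZMod p) (GaloisField p 3)) := Fintype.ofFinite _
  obtain ⟨W, hW⟩ : ∃ W : Submodule (ZMod p) (GaloisField p 3), finrank (ZMod p) W = 2 := by
    obtain ⟨b⟩ : Nonempty (Basis (Fin 3) (ZMod p) (GaloisField p 3)) := ⟨Module.finBasisOfFinrankEq _ _ hv⟩
    have hli : LinearIndependent (ZMod p) (fun i : Fin 2 => b (Fin.castSucc i)) :=
      b.linearIndependent.comp _ (Fin.castSucc_injective 2)
    exact ⟨Submodule.span (ZMod p) (Set.range (fun i : Fin 2 => b (Fin.castSucc i))), by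
      rw [finrank_span_eq_card hli, Fintype.card_fin]⟩
  have hcard : Fintype.card (SG (ZMod p) (GaloisField p 3)) = p ^ 2 + p + 1 := by
    have h1 := Subgroup.card_eq_card_quotient_mul_card_subgroup
      (Units.map (algebraMap (ZMod p) (GaloisField p 3) : ZMod p →* GaloisField p 3)).range
    have hinj : Function.Injective (Units.map (algebraMap (ZMod p) (GaloisField p 3) : ZMod p →* GaloisField p 3)) :=
      Units.map_injective (algebraMap (ZMod p) (GaloisField p 3)).injective
    have h2 : Nat.card (Units.map (algebraMap (ZMod p) (GaloisField p 3) : ZMod p →* GaloisField p 3)).range = p - 1 := by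
      rw [← Nat.card_congr (MonoidHom.ofInjective hinj).toEquiv, Nat.card_units, Nat.card_zmod]
    have h3 : Nat.card (GaloisField p 3)ˣ = p ^ 3 - 1 := by
      rw [Nat.card_units, GaloisField.card p 3 (by norm_num)]
    rw [h2, h3] at h1
    rw [← Nat.card_eq_fintype_card]
    have h4 : Nat.card (SG (ZMod p) (GaloisField p 3)) =
      Nat.card ((GaloisField p 3)ˣ ⧸ (Units.map (algebraMap (ZMod p) (GaloisField p 3) : ZMod p →* GaloisField p 3)).range) := rfl
    rw [h4]
    have hp2 := hp.two_le
    have h5 : p ^ 3 - 1 = (p ^ 2 + p + 1) * (p - 1) := by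
      obtain ⟨q, rfl⟩ : ∃ q, p = q + 1 := ⟨p - 1, by omega⟩
      rw [Nat.add_sub_cancel, Nat.sub_eq_iff_eq_add (Nat.one_le_pow _ _ (by omega))]
      ring
    rw [h5] at h1
    exact (Nat.eq_of_mul_eq_mul_right (by omega) h1).symm
  have hpl := planar W hv hW
  refine ⟨SG (ZMod p) (GaloisField p 3), inferInstance, inferInstance, sD W, hcard, ?_, hpl⟩
  have h6 := card_pl (sD W) hpl
  rw [hcard, Nat.add_sub_cancel] at h6
  obtain ⟨x, hx⟩ : ∃ x, x = (sD W).card := ⟨_, rfl⟩
  rw [← hx] at h6 ⊢
  rcases Nat.lt_trichotomy x (p + 1) with h | h | h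
  · exfalso
    have h7 : x * x - x = x * (x - 1) := by rw [Nat.mul_sub, mul_one]
    have h8 : x * (x - 1) ≤ p * (p - 1) := Nat.mul_le_mul (by omega) (by omega)
    have h9 : p * (p - 1) < p ^ 2 + p := by
      have := hp.pos
      have h10 : p * (p - 1) ≤ p * p := Nat.mul_le_mul_left _ (by omega)
      nlinarith
    omega
  · exact h
  · exfalso
    have h7 : x * x - x = x * (x - 1) := by rw [Nat.mul_sub, mul_one]
    have h8 : (p + 2) * (p + 1) ≤ x * (x - 1) := Nat.mul_le_mul (by omega) (by omega)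
    have h9 : p ^ 2 + p < (p + 2) * (p + 1) := by nlinarith
    omega

theorem singer (p : ℕ) (hp : p.Prime) : ∃ (G : Type) (_ : AddCommGroup G) (_ : Fintype G) (_ : DecidableEq G)
    (D : Finset G), Fintype.card G = p ^ 2 + p + 1 ∧ D.card = p + 1 ∧
      ∀ g : G, g ≠ 0 → ((D ×ˢ D).filter fun x => x.1 - x.2 = g).card = 1 := by
  classical
  obtain ⟨G, iG, iF, D, h1, h2, h3⟩ := singer0 p hp
  refine ⟨G, iG, iF, Classical.decEq G, D, h1, h2, ?_⟩
  intro g hg
  obtain ⟨z, ⟨hz1, hz2, hz3⟩, hz4⟩ := h3 g hg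
  rw [Finset.card_eq_one]
  refine ⟨z, Finset.eq_singleton_iff_unique_mem.2 ⟨?_, ?_⟩⟩
  · exact Finset.mem_filter.2 ⟨Finset.mem_product.2 ⟨hz1, hz2⟩, hz3⟩
  · intro w hw
    obtain ⟨hw1, hw2⟩ := Finset.mem_filter.1 hw
    obtain ⟨hw3, hw4⟩ := Finset.mem_product.1 hw1
    exact hz4 w ⟨hw3, hw4, hw2⟩

end Pool.Agent.H9.AR
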