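import Pool.Agent.H17.Incidence

/-!
# MP_2920eb_co, AsymptoticRegular: the gap of a Cayley incidence graph from its characters (module Spec)

PROOF. Apply `Pool.Agent.H17.le_gap_incidence` with `k = d`, `c = μ ^ 2` (`Real.sqrt_sq`). Degrees: `y ↦ y - x` is a bijection. For a real
function `f` on `G` let `F ψ = sum_x f x * ψ (-x)` (or `conj (ψ x)`), for `ψ : AddChar G ℂ`.
(P) Parseval: `sum_ψ ‖F ψ‖ ^ 2 = card G * sum_x f x ^ 2`, from `AddChar.sum_apply_eq_ite` (Mathlib.Analysis.Fourier.FiniteAbelian: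
`∑ ψ : AddChar α ℂ, ψ a = if a = 0 then card α else 0`) after expanding `‖F ψ‖ ^ 2 = F ψ * conj (F ψ)`.
(C) For `g y = sum_x if y - x ∈ B then f x else 0 = sum_(b in B) f (y - b)` the transform is `F ψ * sum_(b in B) ψ (-b)`, of norm
`‖F ψ‖ ‖sum_(b in B) ψ b‖` (`ψ (-b) = conj (ψ b)`), and for `g x = sum_y if y - x ∈ B then f y else 0 = sum_b f (x + b)` it is
`F ψ * sum_b ψ b`. So `sum g ^ 2 = (1 / card G) sum_ψ ‖..‖ ^ 2 ‖F ψ‖ ^ 2 >= μ ^ 2 sum f ^ 2` in both cases.
(AddChar values have norm 1: `AddChar.norm_apply`.)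
-/

set_option autoImplicit false

namespace Pool.Agent.H9.AR

open Finset Pool.Agent.H17

/-- Parseval -/
private theorem pars {G : Type} [AddCommGroup G] [Fintype G] (f : G → ℝ) :
    ∑ ψ : AddChar G ℂ, ‖∑ x, (f x : ℂ) * ψ x‖ ^ 2 = (Fintype.card G : ℝ) * ∑ x, f x ^ 2 := by
  classical
  have h1 : ∀ ψ : AddChar G ℂ, ((‖∑ x, (f x : ℂ) * ψ x‖ ^ 2 : ℝ) : ℂ) =
      ∑ x, ∑ y, (f x : ℂ) * (f y : ℂ) * ψ (x - y) := by
    intro ψ
    rw [Complex.ofReal_pow, ← Complex.mul_conj', map_sum, sum_mul_sum]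
    refine sum_congr rfl fun x _ => sum_congr rfl fun y _ => ?_
    rw [map_mul, Complex.conj_ofReal, ← AddChar.map_neg_eq_conj, sub_eq_add_neg, AddChar.map_add_eq_mul]
    ring
  have h2 : ((∑ ψ : AddChar G ℂ, ‖∑ x, (f x : ℂ) * ψ x‖ ^ 2 : ℝ) : ℂ) =
      (((Fintype.card G : ℝ) * ∑ x, f x ^ 2 : ℝ) : ℂ) := by
    rw [Complex.ofReal_sum, sum_congr rfl fun ψ _ => h1 ψ, sum_comm]
    have h3 : ∀ x : G, ∑ ψ : AddChar G ℂ, ∑ y, (f x : ℂ) * (f y : ℂ) * ψ (x - y) =
        (Fintype.card G : ℂ) * (f x : ℂ) ^ 2 := by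
      intro x
      rw [sum_comm]
      have h4 : ∀ y : G, ∑ ψ : AddChar G ℂ, (f x : ℂ) * (f y : ℂ) * ψ (x - y) =
          if y = x then (Fintype.card G : ℂ) * (f x : ℂ) ^ 2 else 0 := by
        intro y
        rw [← mul_sum, AddChar.sum_apply_eq_ite]
        by_cases hyx : y = x
        · subst hyx
          rw [sub_self, if_pos rfl, if_pos rfl]
          ring
        · rw [if_neg (fun h => hyx (sub_eq_zero.1 h).symm), if_neg hyx, mul_zero]
      rw [sum_congr rfl fun y _ => h4 y, sum_ite_eq' univ x, if_pos (mem_univ x)]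
    rw [sum_congr rfl fun x _ => h3 x, ← mul_sum]
    push_cast
    rfl
  exact_mod_cast h2

/-- lower bound from the transforms -/
private theorem low {G : Type} [AddCommGroup G] [Fintype G] (μ : ℝ) (hμ : 0 ≤ μ) (f g : G → ℝ) (c : AddChar G ℂ → ℂ)
    (hc : ∀ ψ, μ ≤ ‖c ψ‖) (hg : ∀ ψ : AddChar G ℂ, ∑ x, (g x : ℂ) * ψ x = (∑ x, (f x : ℂ) * ψ x) * c ψ) :
    μ ^ 2 * ∑ x, f x ^ 2 ≤ ∑ x, g x ^ 2 := by
  have h1 := pars f
  have h2 := pars g
  have hG : (0 : ℝ) < Fintype.card G := by exact_mod_cast Fintype.card_pos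
  have h3 : μ ^ 2 * ∑ ψ : AddChar G ℂ, ‖∑ x, (f x : ℂ) * ψ x‖ ^ 2 ≤
      ∑ ψ : AddChar G ℂ, ‖∑ x, (g x : ℂ) * ψ x‖ ^ 2 := by
    rw [mul_sum]
    refine sum_le_sum fun ψ _ => ?_
    rw [hg ψ, norm_mul, mul_pow, mul_comm]
    exact mul_le_mul_of_nonneg_left (pow_le_pow_left₀ hμ (hc ψ) 2) (by positivity)
  rw [h1, h2] at h3
  have h4 : (Fintype.card G : ℝ) * (μ ^ 2 * ∑ x, f x ^ 2) ≤ (Fintype.card G : ℝ) * ∑ x, g x ^ 2 := by linarith
  exact le_of_mul_le_mul_left h4 hG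

theorem gap_of_chars {G : Type} [AddCommGroup G] [Fintype G] (B : Finset G) (d : ℕ) (hd : 0 < d)
    (hB : B.card = d) (μ : ℝ) (hμ : 0 ≤ μ) (h : ∀ ψ : AddChar G ℂ, μ ≤ ‖∑ b ∈ B, ψ b‖) :
    μ / d ≤ gap (incidenceGraph fun x y : G => y - x ∈ B) := by
  classical
  have hsub : ∀ (x : G) (w : G → ℂ), ∑ y, (if y - x ∈ B then w y else 0) = ∑ b ∈ B, w (x + b) := by
    intro x w
    rw [← sum_filter]
    refine (sum_bij' (fun b _ => x + b) (fun y _ => y - x) ?_ ?_ ?_ ?_ ?_).symm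
    · intro b hb
      rw [mem_filter, add_sub_cancel_left]
      exact ⟨mem_univ _, hb⟩
    · intro y hy
      exact (mem_filter.1 hy).2
    · intro b _
      rw [add_sub_cancel_left]
    · intro y _
      rw [add_sub_cancel]
    · intro b _
      rfl
  have hsub' : ∀ (y : G) (w : G → ℂ), ∑ x, (if y - x ∈ B then w x else 0) = ∑ b ∈ B, w (y - b) := by
    intro y w
    rw [← sum_filter]
    refine (sum_bij' (fun b _ => y - b) (fun x _ => y - x) ?_ ?_ ?_ ?_ ?_).symm
    · intro b hb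
      rw [mem_filter, sub_sub_cancel]
      exact ⟨mem_univ _, hb⟩
    · intro x hx
      exact (mem_filter.1 hx).2
    · intro b _
      rw [sub_sub_cancel]
    · intro x _
      rw [sub_sub_cancel]
    · intro b _
      rfl
  have hd1 : ∀ x : G, (univ.filter fun y => y - x ∈ B).card = d := by
    intro x
    rw [← hB]
    refine (card_bij' (fun b _ => x + b) (fun y _ => y - x) ?_ ?_ ?_ ?_).symm
    · intro b hb
      rw [mem_filter, add_sub_cancel_left]
      exact ⟨mem_univ _, hb⟩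
    · intro y hy
      exact (mem_filter.1 hy).2
    · intro b _
      rw [add_sub_cancel_left]
    · intro y _
      rw [add_sub_cancel]
  have hd2 : ∀ y : G, (univ.filter fun x => y - x ∈ B).card = d := by
    intro y
    rw [← hB]
    refine (card_bij' (fun b _ => y - b) (fun x _ => y - x) ?_ ?_ ?_ ?_).symm
    · intro b hb
      rw [mem_filter, sub_sub_cancel]
      exact ⟨mem_univ _, hb⟩
    · intro x hx
      exact (mem_filter.1 hx).2
    · intro b _
      rw [sub_sub_cancel]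
    · intro x _
      rw [sub_sub_cancel]
  have hP : ∀ f : G → ℝ, μ ^ 2 * ∑ x, f x ^ 2 ≤ ∑ y, (∑ x, if y - x ∈ B then f x else 0) ^ 2 := by
    intro f
    refine low μ hμ f (fun y => ∑ x, if y - x ∈ B then f x else 0) (fun ψ => ∑ b ∈ B, ψ b) h ?_
    intro ψ
    have e1 : ∀ y : G, (((∑ x, if y - x ∈ B then f x else 0 : ℝ)) : ℂ) * ψ y =
        ∑ x, (if y - x ∈ B then (f x : ℂ) * ψ y else 0) := by
      intro y
      rw [Complex.ofReal_sum, sum_mul]
      refine sum_congr rfl fun x _ => ?_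
      by_cases hyx : y - x ∈ B
      · rw [if_pos hyx, if_pos hyx]
      · rw [if_neg hyx, if_neg hyx, Complex.ofReal_zero, zero_mul]
    rw [sum_congr rfl fun y _ => e1 y, sum_comm, sum_mul]
    refine sum_congr rfl fun x _ => ?_
    rw [hsub x (fun y => (f x : ℂ) * ψ y), mul_sum]
    refine sum_congr rfl fun b _ => ?_
    rw [AddChar.map_add_eq_mul]
    ring
  have hQ : ∀ f : G → ℝ, μ ^ 2 * ∑ y, f y ^ 2 ≤ ∑ x, (∑ y, if y - x ∈ B then f y else 0) ^ 2 := by
    intro f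
    refine low μ hμ f (fun x => ∑ y, if y - x ∈ B then f y else 0) (fun ψ => ∑ b ∈ B, ψ (-b)) ?_ ?_
    · intro ψ
      have e2 : ∑ b ∈ B, ψ (-b) = (starRingEnd ℂ) (∑ b ∈ B, ψ b) := by
        rw [map_sum]
        exact sum_congr rfl fun b _ => AddChar.map_neg_eq_conj ψ b
      rw [e2, RCLike.norm_conj]
      exact h ψ
    intro ψ
    have e1 : ∀ x : G, (((∑ y, if y - x ∈ B then f y else 0 : ℝ)) : ℂ) * ψ x =
        ∑ y, (if y - x ∈ B then (f y : ℂ) * ψ x else 0) := by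
      intro x
      rw [Complex.ofReal_sum, sum_mul]
      refine sum_congr rfl fun y _ => ?_
      by_cases hyx : y - x ∈ B
      · rw [if_pos hyx, if_pos hyx]
      · rw [if_neg hyx, if_neg hyx, Complex.ofReal_zero, zero_mul]
    rw [sum_congr rfl fun x _ => e1 x, sum_comm, sum_mul]
    refine sum_congr rfl fun y _ => ?_
    rw [hsub' y (fun x => (f y : ℂ) * ψ x), mul_sum]
    refine sum_congr rfl fun b _ => ?_
    rw [sub_eq_add_neg, AddChar.map_add_eq_mul]
    ring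
  have hmain := le_gap_incidence (fun x y : G => y - x ∈ B) d hd
    (fun x => by
      have := hd1 x
      convert this)
    (fun y => by
      have := hd2 y
      convert this) (μ ^ 2) (sq_nonneg μ)
    (fun f => by
      have := hP f
      convert this)
    (fun f => by
      have := hQ f
      convert this)
  rw [Real.sqrt_sq hμ] at hmain
  exact hmain

end Pool.Agent.H9.AR
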